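import Mathlib

/-! A counterexample to the area inequality for weighted geometric means in the class Sigma,
with both functions free of zeros outside the unit disc. -/

open Complex Set Metric
open scoped ENNReal

namespace Pool.Agent.Results.MP_9f54b8_an.Counter

/-- The class Sigma: analytic and univalent in `|z| > 1`, with expansion
`f z = z + ∑ b n z^(-n)` there. -/
def InSigma (f : ℂ → ℂ) : Prop :=
  DifferentiableOn ℂ f {z | 1 < ‖z‖} ∧ InjOn f {z | 1 < ‖z‖} ∧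
    ∃ b : ℕ → ℂ, ∀ z : ℂ, 1 < ‖z‖ → HasSum (fun n => b n * z⁻¹ ^ n) (f z - z)

lemma hs_congr {u v : ℕ → ℂ} {x y : ℂ} (h : HasSum u x) (h1 : ∀ n, v n = u n) (h2 : y = x) :
    HasSum v y := by
  rw [funext h1, h2]; exact h

lemma expand (φ : ℂ → ℂ) (R : ℝ) (hR : 0 < R) (hφ : DifferentiableOn ℂ φ (ball 0 R⁻¹))
    (h0 : φ 0 = 1) (z : ℂ) (hz : R < ‖z‖) :
    HasSum (fun n => (((n + 1).factorial : ℂ)⁻¹ * iteratedDeriv (n + 1) φ 0) * z⁻¹ ^ n)
      (z * φ z⁻¹ - z) := by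
  have hz0 : z ≠ 0 := by
    intro h; rw [h, norm_zero] at hz; linarith
  have hw : z⁻¹ ∈ ball (0 : ℂ) R⁻¹ := by
    rw [mem_ball_zero_iff, norm_inv]
    exact inv_strictAnti₀ hR hz
  have h1 := Complex.hasSum_taylorSeries_on_ball hφ hw
  have h2 := (hasSum_nat_add_iff' 1).mpr h1
  have h3 := h2.mul_left z
  refine hs_congr h3 (fun n => ?_) ?_
  · simp only [smul_eq_mul, sub_zero]
    have := mul_inv_cancel₀ hz0
    rw [pow_succ]
    linear_combination (-(((n + 1).factorial : ℂ)⁻¹ * iteratedDeriv (n + 1) φ 0) * z⁻¹ ^ n) * this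
  · simp [h0]; ring

noncomputable def a : ℂ := ⟨-3 / 10, 4 / 10⟩

lemma norm_a : ‖a‖ = 1 / 2 := by
  have : ‖a‖ ^ 2 = (1 / 2) ^ 2 := by
    rw [Complex.sq_norm, Complex.normSq_apply]; simp [a]; norm_num
  exact (pow_left_inj₀ (norm_nonneg _) (by norm_num) two_ne_zero).mp this

lemma add_a_ne (z : ℂ) (hz : 1 < ‖z‖) : z + a ≠ 0 := by
  intro h
  have : z = -a := by linear_combination h
  rw [this, norm_neg, norm_a] at hz; norm_num at hz

lemma one_add_ne (w : ℂ) (hw : ‖w‖ < 1) : 1 + a * w ≠ 0 := by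
  intro h
  have h1 : a * w = -1 := by linear_combination h
  have h2 := congrArg norm h1
  rw [norm_mul, norm_a, norm_neg, norm_one] at h2
  linarith

noncomputable def f (z : ℂ) : ℂ := (z - 1) ^ 2 / (z + a)
noncomputable def φ (w : ℂ) : ℂ := (1 - w) ^ 2 / (1 + a * w)

lemma key (z w : ℂ) (hz : 1 < ‖z‖) (hw : 1 < ‖w‖) : (z + a) * (w + a) ≠ (a + 1) ^ 2 := by
  intro h
  have h1 : w * (z + a) = 1 + 2 * a - a * z := by linear_combination h
  have h2 := congrArg (fun u => ‖u‖ ^ 2) h1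
  simp only [norm_mul, mul_pow] at h2
  have hp : 0 < ‖z + a‖ ^ 2 := pow_pos (norm_pos_iff.mpr (add_a_ne z hz)) 2
  have hw2 : 1 < ‖w‖ ^ 2 := by nlinarith
  have h3 : ‖z + a‖ ^ 2 < ‖1 + 2 * a - a * z‖ ^ 2 := by nlinarith
  have hz2 : 1 < ‖z‖ ^ 2 := by nlinarith
  rw [Complex.sq_norm, Complex.normSq_apply] at hz2
  rw [Complex.sq_norm, Complex.sq_norm, Complex.normSq_apply, Complex.normSq_apply] at h3
  simp [a] at h3
  nlinarith [sq_nonneg (z.re - 1), sq_nonneg z.im]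

lemma f_inj : InjOn f {z | 1 < ‖z‖} := by
  intro z hz w hw h
  have hz' := add_a_ne z hz
  have hw' := add_a_ne w hw
  unfold f at h
  rw [div_eq_div_iff hz' hw'] at h
  have : (z - w) * ((z + a) * (w + a) - (a + 1) ^ 2) = 0 := by linear_combination h
  rcases mul_eq_zero.mp this with h1 | h1
  · exact sub_eq_zero.mp h1
  · exact absurd (sub_eq_zero.mp h1) (key z w hz hw)

lemma f_eq (z : ℂ) (hz : 1 < ‖z‖) : f z = z * φ z⁻¹ := by
  have hz0 : z ≠ 0 := by
    intro h; rw [h, norm_zero] at hz; linarith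
  have := add_a_ne z hz
  have h2 : 1 + a * z⁻¹ ≠ 0 := one_add_ne _ (by rw [norm_inv]; exact inv_lt_one_of_one_lt₀ hz)
  unfold f φ
  rw [← mul_div_assoc, div_eq_div_iff this h2]
  field_simp

lemma φ_diff : DifferentiableOn ℂ φ (ball 0 1) := by
  intro w hw
  have := one_add_ne w (by simpa using hw)
  apply DifferentiableAt.differentiableWithinAt
  unfold φ
  fun_prop (disch := assumption)

lemma f_sigma : InSigma f := by
  refine ⟨?_, f_inj, fun n => ((n + 1).factorial : ℂ)⁻¹ * iteratedDeriv (n + 1) φ 0,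
    fun z hz => ?_⟩
  · intro z hz
    have := add_a_ne z hz
    apply DifferentiableAt.differentiableWithinAt
    unfold f
    fun_prop (disch := assumption)
  · rw [f_eq z hz]
    exact expand φ 1 one_pos (by simpa using φ_diff) (by simp [φ]) z hz

lemma neg_sigma (f : ℂ → ℂ) (hf : InSigma f) : InSigma (fun z => -f (-z)) := by
  obtain ⟨h1, h2, b, h3⟩ := hf
  refine ⟨?_, ?_, fun n => -(b n * (-1) ^ n), fun z hz => ?_⟩
  · apply DifferentiableOn.neg
    apply h1.comp (by fun_prop)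
    intro z hz
    simpa using hz
  · intro z hz w hw h
    have := h2 (show -z ∈ {z : ℂ | 1 < ‖z‖} by simpa using hz)
      (show -w ∈ {z : ℂ | 1 < ‖z‖} by simpa using hw) (neg_injective h)
    exact neg_injective this
  · have := (h3 (-z) (by simpa using hz)).neg
    refine hs_congr this (fun n => ?_) ?_
    · rw [inv_neg, neg_pow z⁻¹]; ring
    · ring

lemma φ_near (w : ℂ) (hw : ‖w‖ < 1 / 4) : ‖φ w - 1‖ < 1 := by
  have h1 := one_add_ne w (by linarith)
  have h2 : φ w - 1 = w * (w - 2 - a) / (1 + a * w) := by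
    unfold φ; rw [div_sub_one h1]; congr 1; ring
  have h3 : 7 / 8 ≤ ‖1 + a * w‖ := by
    have := norm_sub_norm_le (1 : ℂ) (-(a * w))
    rw [sub_neg_eq_add, norm_neg, norm_mul, norm_a, norm_one] at this
    linarith
  have h4 : ‖w - 2 - a‖ ≤ 3 := by
    have h5 := norm_sub_le (w - 2) a
    have h6 := norm_sub_le w 2
    rw [norm_a] at h5
    simp at h6
    linarith
  rw [h2, norm_div, norm_mul, div_lt_one (by linarith)]
  nlinarith [norm_nonneg w, norm_nonneg (w - 2 - a)]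

lemma φ_slit (w : ℂ) (hw : ‖w‖ < 1 / 4) : φ w ∈ slitPlane := by
  have := φ_near w hw
  have h := mem_slitPlane_of_norm_lt_one this
  simpa using h

noncomputable def G (w : ℂ) : ℂ := φ w ^ ((1 : ℂ) / 2) * φ (-w) ^ ((1 : ℂ) / 2)

lemma G_diff : DifferentiableOn ℂ G (ball 0 (4 : ℝ)⁻¹) := by
  intro w hw
  have hw' : ‖w‖ < 1 / 4 := by simpa using hw
  have h1 : DifferentiableAt ℂ φ w :=
    φ_diff.differentiableAt (isOpen_ball.mem_nhds (by simp; linarith))
  have h2 : DifferentiableAt ℂ φ (-w) :=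
    φ_diff.differentiableAt (isOpen_ball.mem_nhds (by simp; linarith))
  have h3 : DifferentiableAt ℂ (fun w => φ (-w)) w := h2.comp w (by fun_prop)
  apply DifferentiableAt.differentiableWithinAt
  unfold G
  exact (h1.cpow_const (φ_slit w hw')).mul (h3.cpow_const (φ_slit (-w) (by simpa using hw')))

lemma G_sq (w : ℂ) (hw : ‖w‖ < 1 / 4) : G w ^ 2 * (1 - a ^ 2 * w ^ 2) = (1 - w ^ 2) ^ 2 := by
  have e : ∀ u : ℂ, (u ^ ((1 : ℂ) / 2)) ^ 2 = u := by
    intro u
    simp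
  unfold G
  rw [mul_pow, e, e]
  have h1 := one_add_ne w (by linarith)
  have h2 := one_add_ne (-w) (by rw [norm_neg]; linarith)
  unfold φ
  have h3 : 1 - a ^ 2 * w ^ 2 = (1 + a * w) * (1 + a * -w) := by ring
  rw [h3, div_mul_div_comm, div_mul_cancel₀ _ (mul_ne_zero h1 h2)]
  ring

lemma G_zero : G 0 = 1 := by simp [G, φ]

lemma G_two : iteratedDeriv 2 G 0 = a ^ 2 - 2 := by
  have hb : ball (0 : ℂ) (4 : ℝ)⁻¹ ∈ nhds (0 : ℂ) := ball_mem_nhds _ (by norm_num)
  have hA : AnalyticOnNhd ℂ G (ball 0 (4 : ℝ)⁻¹) := G_diff.analyticOnNhd isOpen_ball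
  have hd : ∀ w ∈ ball (0 : ℂ) (4 : ℝ)⁻¹,
      2 * G w * deriv G w * (1 - a ^ 2 * w ^ 2) - G w ^ 2 * (2 * a ^ 2 * w)
        = -4 * w * (1 - w ^ 2) := by
    intro w hw
    have h1 : HasDerivAt G (deriv G w) w := (hA w hw).differentiableAt.hasDerivAt
    have h2 : HasDerivAt (fun w => G w ^ 2 * (1 - a ^ 2 * w ^ 2))
        (2 * G w * deriv G w * (1 - a ^ 2 * w ^ 2) - G w ^ 2 * (2 * a ^ 2 * w)) w := by
      have h3 : HasDerivAt (fun w : ℂ => 1 - a ^ 2 * w ^ 2) (-(a ^ 2 * (2 * w))) w := by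
        simpa using ((hasDerivAt_pow 2 w).const_mul (a ^ 2)).const_sub 1
      refine ((h1.pow 2).mul h3).congr_deriv ?_
      simp; ring
    have h4 : HasDerivAt (fun w : ℂ => (1 - w ^ 2) ^ 2) (-4 * w * (1 - w ^ 2)) w := by
      have h3 : HasDerivAt (fun w : ℂ => 1 - w ^ 2) (-(2 * w)) w := by
        simpa using (hasDerivAt_pow 2 w).const_sub 1
      refine (h3.pow 2).congr_deriv ?_
      simp; ring
    have h5 : (fun w => G w ^ 2 * (1 - a ^ 2 * w ^ 2)) =ᶠ[nhds w] fun w : ℂ => (1 - w ^ 2) ^ 2 := by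
      filter_upwards [isOpen_ball.mem_nhds hw] with u hu
      exact G_sq u (by simpa using hu)
    exact h2.unique (h4.congr_of_eventuallyEq h5)
  have h0 := hd 0 (mem_ball_self (by norm_num))
  have hG1 : deriv G 0 = 0 := by simpa [G_zero] using h0
  have h1 : HasDerivAt G (deriv G 0) 0 := (hA 0 (mem_ball_self (by norm_num))).differentiableAt.hasDerivAt
  have h1' : HasDerivAt (deriv G) (deriv (deriv G) 0) 0 :=
    (hA 0 (mem_ball_self (by norm_num))).deriv.differentiableAt.hasDerivAt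
  have h3 : HasDerivAt (fun w : ℂ => 1 - a ^ 2 * w ^ 2) 0 0 := by
    simpa using ((hasDerivAt_pow 2 (0 : ℂ)).const_mul (a ^ 2)).const_sub 1
  have h6 : HasDerivAt (fun w : ℂ => 2 * a ^ 2 * w) (2 * a ^ 2) 0 := by
    simpa using (hasDerivAt_id (0 : ℂ)).const_mul (2 * a ^ 2)
  have h7 : HasDerivAt (fun w => 2 * G w * deriv G w * (1 - a ^ 2 * w ^ 2) - G w ^ 2 * (2 * a ^ 2 * w))
      (2 * deriv (deriv G) 0 - 2 * a ^ 2) 0 := by
    refine ((((h1.const_mul 2).mul h1').mul h3).sub ((h1.pow 2).mul h6)).congr_deriv ?_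
    simp [G_zero, hG1]
  have h8 : HasDerivAt (fun w : ℂ => -4 * w * (1 - w ^ 2)) (-4) 0 := by
    have h9 : HasDerivAt (fun w : ℂ => 1 - w ^ 2) 0 0 := by
      simpa using (hasDerivAt_pow 2 (0 : ℂ)).const_sub 1
    refine (((hasDerivAt_id (0 : ℂ)).const_mul (-4)).mul h9).congr_deriv ?_
    simp
  have h5 : (fun w => 2 * G w * deriv G w * (1 - a ^ 2 * w ^ 2) - G w ^ 2 * (2 * a ^ 2 * w))
      =ᶠ[nhds 0] fun w : ℂ => -4 * w * (1 - w ^ 2) := by
    filter_upwards [hb] with u hu using hd u hu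
  have := h7.unique (h8.congr_of_eventuallyEq h5)
  rw [iteratedDeriv_succ, iteratedDeriv_one]
  linear_combination this / 2

theorem result : ∃ α : ℝ, 0 < α ∧ α < 1 ∧ ∃ f g : ℂ → ℂ, InSigma f ∧ InSigma g ∧
    (∀ z : ℂ, 1 < ‖z‖ → f z ≠ 0 ∧ g z ≠ 0) ∧
    ∃ (R : ℝ) (A : ℕ → ℂ), 1 ≤ R ∧
      (∀ z : ℂ, R < ‖z‖ → ‖f z / z - 1‖ < 1 ∧ ‖g z / z - 1‖ < 1 ∧
        HasSum (fun n => A n * z⁻¹ ^ n)
          (z * (f z / z) ^ ((1 - α : ℝ) : ℂ) * (g z / z) ^ (α : ℂ) - z)) ∧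
      1 < ∑' n : ℕ, (n : ℝ≥0∞) * ‖A n‖ₑ ^ 2 := by
  refine ⟨1 / 2, by norm_num, by norm_num, f, fun z => -f (-z), f_sigma, neg_sigma f f_sigma,
    ?_, 4, fun n => ((n + 1).factorial : ℂ)⁻¹ * iteratedDeriv (n + 1) G 0, by norm_num, ?_, ?_⟩
  · have h : ∀ z : ℂ, 1 < ‖z‖ → f z ≠ 0 := by
      intro z hz
      unfold f
      refine div_ne_zero (pow_ne_zero _ ?_) (add_a_ne z hz)
      intro h
      rw [sub_eq_zero.mp h] at hz; simp at hz
    intro z hz
    exact ⟨h z hz, neg_ne_zero.mpr (h (-z) (by simpa using hz))⟩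
  · intro z hz
    have hz0 : z ≠ 0 := by
      intro h; rw [h, norm_zero] at hz; linarith
    have e1 : f z / z = φ z⁻¹ := by
      rw [f_eq z (by linarith)]; field_simp
    have e2 : -f (-z) / z = φ (-z⁻¹) := by
      rw [f_eq (-z) (by rw [norm_neg]; linarith), inv_neg]; field_simp
    have hw : ‖z⁻¹‖ < 1 / 4 := by
      rw [norm_inv, one_div]; exact inv_strictAnti₀ (by norm_num) hz
    simp only [e1, e2]
    refine ⟨φ_near _ hw, φ_near _ (by rwa [norm_neg]), ?_⟩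
    have := expand G 4 (by norm_num) G_diff G_zero z hz
    convert this using 2
    unfold G
    have c1 : (((1 - 1 / 2 : ℝ)) : ℂ) = 1 / 2 := by push_cast; norm_num
    have c2 : (((1 / 2 : ℝ)) : ℂ) = 1 / 2 := by push_cast; norm_num
    rw [c1, c2, mul_assoc]
  · refine lt_of_lt_of_le ?_ (ENNReal.le_tsum 1)
    have h1 : (1 : ℝ) < ‖(((1 + 1).factorial : ℂ))⁻¹ * iteratedDeriv (1 + 1) G 0‖ := by
      have : ((1 + 1).factorial : ℂ) = 2 := by norm_num [Nat.factorial]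
      rw [this, show (1 + 1 : ℕ) = 2 from rfl, G_two]
      refine lt_of_lt_of_le ?_ (Complex.abs_re_le_norm _)
      rw [lt_abs]; right
      simp [a, pow_two]; norm_num
    have h2 : (1 : ℝ≥0∞) < ‖(((1 + 1).factorial : ℂ))⁻¹ * iteratedDeriv (1 + 1) G 0‖ₑ := by
      rw [← ofReal_norm]
      exact ENNReal.one_lt_ofReal.mpr h1
    simp only [Nat.cast_one, one_mul]
    exact one_lt_pow₀ h2 two_ne_zero

end Pool.Agent.Results.MP_9f54b8_an.Counter
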